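import Pool.Agent.helper52.T1.SpecF
import Pool.Agent.helper94.T1.AP1

/-!
# MP_07c750, project T1: row FN2 (THEOREM T1 (1)), second prover
-/

set_option autoImplicit false

open scoped MatrixGroups ContDiff Topology UpperHalfPlane ComplexConjugate
open UpperHalfPlane MeasureTheory Filter Set

namespace Pool.Agent.T1

open Pool.Agent.RS Pool.Agent.MS Pool.Agent.HV
open Pool.Agent.EN (XG MG mkX mkM fl pr)
open Pool.Agent.ER (Low LowJ)

theorem F2_pigeon (f : ℕ → ℝ) (J : ℕ) (hJ : 1 ≤ J) (h0 : 0 ≤ f 0) (h1 : f J ≤ 1) : ∃ i < J, f (i + 1) ≤ f i + 1 / J := by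
  by_contra hcon
  push Not at hcon
  have hJ' : (0 : ℝ) < J := by exact_mod_cast hJ
  have key : ∀ i : ℕ, i ≤ J → f 0 + i * (1 / J) ≤ f i := by
    intro i
    induction i with
    | zero => intro _; simp
    | succ i ih =>
      intro hi
      have a1 := ih (by omega)
      have a2 := hcon i (by omega)
      push_cast
      linarith
  have a1 := key (J - 1) (by omega)
  have a2 := hcon (J - 1) (by omega)
  have e : J - 1 + 1 = J := by omega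
  rw [e] at a2
  have e2 : ((J - 1 : ℕ) : ℝ) = J - 1 := by rw [Nat.cast_sub hJ]; simp
  rw [e2] at a1
  have e3 : ((J : ℝ) - 1) * (1 / J) + 1 / J = 1 := by field_simp; ring
  linarith

/-- the change of the membership, on `X` -/
noncomputable def F2_b (Γ : Subgroup SL(2, ℝ)) (κX : XG Γ → ℝ) (u : ℝ) (x : XG Γ) : ℝ := κX x * (1 - κX (fl Γ u x)) + κX (fl Γ u x) * (1 - κX x)

/-- `Bd` on `X` -/
noncomputable def F2_B (Γ : Subgroup SL(2, ℝ)) (κX : XG Γ → ℝ) (N0 y0 : ℕ) (x : XG Γ) : ℝ :=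
  ∑ i ∈ Finset.range (y0 + 1), F2_b Γ κX ((i : ℕ) * Real.log N0) x + (∫ u in (0 : ℝ)..Real.log N0, F2_b Γ κX u x) / Real.log N0

theorem F2_b01 {a b : ℝ} (ha : 0 ≤ a ∧ a ≤ 1) (hb : 0 ≤ b ∧ b ≤ 1) : 0 ≤ a * (1 - b) + b * (1 - a) ∧ a * (1 - b) + b * (1 - a) ≤ 1 := by
  obtain ⟨h1, h2⟩ := ha
  obtain ⟨h3, h4⟩ := hb
  have a1 := mul_nonneg h1 (sub_nonneg.2 h4)
  have a2 := mul_nonneg h3 (sub_nonneg.2 h2)
  have a3 := mul_nonneg (sub_nonneg.2 h2) (sub_nonneg.2 h4)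
  have a4 := mul_nonneg h1 h3
  constructor
  · linarith
  · nlinarith

theorem F2_BX (hXFL : EN.XFL_stmt) (hXTX : EN.XTX_stmt) (Γ : Subgroup SL(2, ℝ)) (hΓ : QU.SurfaceGroup Γ) (κ : SL(2, ℝ) → ℝ) (κX : XG Γ → ℝ)
    (hc : Continuous κX) (hk : ∀ g, κX (mkX Γ g) = κ g) (h01 : ∀ g, 0 ≤ κ g ∧ κ g ≤ 1) (N0 y0 : ℕ) (hN : 2 ≤ N0) :
    Continuous (F2_B Γ κX N0 y0) ∧ (∀ g, F2_B Γ κX N0 y0 (mkX Γ g) = Bd κ N0 y0 g) ∧ (∀ x, 0 ≤ F2_B Γ κX N0 y0 x ∧ F2_B Γ κX N0 y0 x ≤ y0 + 2) ∧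
    ∀ (μ : Measure (XG Γ)) (D : ℝ), IsProbabilityMeasure μ → (∀ s, ∫ x, F2_b Γ κX s x ∂μ ≤ D) → ∫ x, F2_B Γ κX N0 y0 x ∂μ ≤ (y0 + 2) * D := by
  obtain ⟨hF, -, -, -, hsur, -, -, -, hfl, -⟩ := hXFL Γ
  obtain ⟨hcX, hTX, hSX⟩ := hXTX Γ hΓ
  have hN' : (2 : ℝ) ≤ N0 := by exact_mod_cast hN
  have hn : 0 < Real.log N0 := Real.log_pos (by linarith)
  have hX01 : ∀ x, 0 ≤ κX x ∧ κX x ≤ 1 := by
    intro x
    obtain ⟨g, rfl⟩ := hsur x
    rw [hk]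
    exact h01 g
  have hb01 : ∀ u x, 0 ≤ F2_b Γ κX u x ∧ F2_b Γ κX u x ≤ 1 := fun u x => F2_b01 (hX01 x) (hX01 _)
  have hbc : Continuous (Function.uncurry fun (u : ℝ) (x : XG Γ) => F2_b Γ κX u x) := by
    have c1 : Continuous fun q : ℝ × XG Γ => κX (fl Γ q.1 q.2) := hc.comp hF.cont
    have c2 : Continuous fun q : ℝ × XG Γ => κX q.2 := hc.comp continuous_snd
    exact (c2.mul (continuous_const.sub c1)).add (c1.mul (continuous_const.sub c2))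
  have hbc' : Continuous (Function.uncurry fun (x : XG Γ) (u : ℝ) => F2_b Γ κX u x) := hbc.comp continuous_swap
  have hbx : ∀ u, Continuous fun x => F2_b Γ κX u x := fun u => hbc.comp (continuous_const.prodMk continuous_id)
  have hbu : ∀ x, Continuous fun u => F2_b Γ κX u x := fun x => hbc.comp (continuous_id.prodMk continuous_const)
  have hsc : Continuous fun x => ∑ i ∈ Finset.range (y0 + 1), F2_b Γ κX ((i : ℕ) * Real.log N0) x :=
    continuous_finset_sum _ fun i _ => hbx _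
  have hic : Continuous fun x => (∫ u in (0 : ℝ)..Real.log N0, F2_b Γ κX u x) / Real.log N0 :=
    (intervalIntegral.continuous_parametric_intervalIntegral_of_continuous' hbc' 0 (Real.log N0)).div_const _
  have hi01 : ∀ x, 0 ≤ (∫ u in (0 : ℝ)..Real.log N0, F2_b Γ κX u x) / Real.log N0 ∧ (∫ u in (0 : ℝ)..Real.log N0, F2_b Γ κX u x) / Real.log N0 ≤ 1 := by
    intro x
    constructor
    · exact div_nonneg (intervalIntegral.integral_nonneg hn.le fun u _ => (hb01 u x).1) hn.le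
    · rw [div_le_one hn]
      have h1 : ∫ u in (0 : ℝ)..Real.log N0, F2_b Γ κX u x ≤ ∫ u in (0 : ℝ)..Real.log N0, (1 : ℝ) :=
        intervalIntegral.integral_mono_on hn.le ((hbu x).intervalIntegrable _ _) (continuous_const.intervalIntegrable _ _) fun u _ => (hb01 u x).2
      rw [intervalIntegral.integral_const, smul_eq_mul, mul_one, sub_zero] at h1
      exact h1
  have hs01 : ∀ x, 0 ≤ ∑ i ∈ Finset.range (y0 + 1), F2_b Γ κX ((i : ℕ) * Real.log N0) x ∧ ∑ i ∈ Finset.range (y0 + 1), F2_b Γ κX ((i : ℕ) * Real.log N0) x ≤ y0 + 1 := by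
    intro x
    refine ⟨Finset.sum_nonneg fun i _ => (hb01 _ x).1, ?_⟩
    have h1 := Finset.sum_le_card_nsmul (Finset.range (y0 + 1)) (fun i => F2_b Γ κX ((i : ℕ) * Real.log N0) x) 1 (fun i _ => (hb01 _ x).2)
    rw [Finset.card_range, nsmul_eq_mul, mul_one] at h1
    push_cast at h1
    exact h1
  refine ⟨hsc.add hic, ?_, ?_, ?_⟩
  · intro g
    have e : ∀ u, F2_b Γ κX u (mkX Γ g) = bad κ u g := by
      intro u
      unfold F2_b bad
      rw [hfl, hk, hk]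
    unfold F2_B Bd
    simp only [e]
  · intro x
    obtain ⟨a1, a2⟩ := hs01 x
    obtain ⟨a3, a4⟩ := hi01 x
    unfold F2_B
    constructor <;> linarith
  · intro μ D hμ hD
    have hbi : ∀ u, Integrable (fun x => F2_b Γ κX u x) μ := fun u =>
      APL_ii μ (hbx u) (B := 1) fun x => by rw [abs_of_nonneg (hb01 u x).1]; exact (hb01 u x).2
    have hsi : Integrable (fun x => ∑ i ∈ Finset.range (y0 + 1), F2_b Γ κX ((i : ℕ) * Real.log N0) x) μ :=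
      integrable_finset_sum _ fun i _ => hbi _
    have hii : Integrable (fun x => (∫ u in (0 : ℝ)..Real.log N0, F2_b Γ κX u x) / Real.log N0) μ :=
      APL_ii μ hic (B := 1) fun x => by rw [abs_of_nonneg (hi01 x).1]; exact (hi01 x).2
    have e1 : ∫ x, F2_B Γ κX N0 y0 x ∂μ = ∑ i ∈ Finset.range (y0 + 1), ∫ x, F2_b Γ κX ((i : ℕ) * Real.log N0) x ∂μ + (∫ u in (0 : ℝ)..Real.log N0, ∫ x, F2_b Γ κX u x ∂μ) / Real.log N0 := by
      unfold F2_B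
      rw [integral_add hsi hii, integral_finset_sum _ fun i _ => hbi _, integral_div]
      congr 2
      rw [intervalIntegral_integral_swap]
      haveI : IsFiniteMeasure ((volume : Measure ℝ).restrict (Set.uIoc 0 (Real.log N0))) := by
        rw [uIoc_of_le hn.le]
        infer_instance
      exact APL_ii _ hbc (B := 1) fun q => by
        obtain ⟨u, x⟩ := q
        show |F2_b Γ κX u x| ≤ 1
        rw [abs_of_nonneg (hb01 u x).1]
        exact (hb01 u x).2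
    have e2 : ∑ i ∈ Finset.range (y0 + 1), ∫ x, F2_b Γ κX ((i : ℕ) * Real.log N0) x ∂μ ≤ (y0 + 1) * D := by
      have h1 := Finset.sum_le_card_nsmul (Finset.range (y0 + 1)) (fun i => ∫ x, F2_b Γ κX ((i : ℕ) * Real.log N0) x ∂μ) D (fun i _ => hD _)
      rw [Finset.card_range, nsmul_eq_mul] at h1
      push_cast at h1
      exact h1
    have e3 : (∫ u in (0 : ℝ)..Real.log N0, ∫ x, F2_b Γ κX u x ∂μ) / Real.log N0 ≤ D := by
      rw [div_le_iff₀ hn]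
      have h2 : IntervalIntegrable (fun u => ∫ x, F2_b Γ κX u x ∂μ) volume 0 (Real.log N0) := by
        rw [intervalIntegrable_iff_integrableOn_Ioc_of_le hn.le]
        have h3 : Integrable (Function.uncurry fun (u : ℝ) (x : XG Γ) => F2_b Γ κX u x) (((volume : Measure ℝ).restrict (Ioc 0 (Real.log N0))).prod μ) :=
          APL_ii _ hbc (B := 1) fun q => by
            obtain ⟨u, x⟩ := q
            show |F2_b Γ κX u x| ≤ 1
            rw [abs_of_nonneg (hb01 u x).1]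
            exact (hb01 u x).2
        exact h3.integral_prod_left
      have h1 : ∫ u in (0 : ℝ)..Real.log N0, ∫ x, F2_b Γ κX u x ∂μ ≤ ∫ u in (0 : ℝ)..Real.log N0, D :=
        intervalIntegral.integral_mono_on hn.le h2 (continuous_const.intervalIntegrable _ _) fun u _ => hD u
      rw [intervalIntegral.integral_const, smul_eq_mul, sub_zero] at h1
      linarith
    rw [e1]
    linarith

theorem F2_mono (Γ : Subgroup SL(2, ℝ)) (μ : Measure (XG Γ)) (a b : ℝ) (hab : a ≤ b) : Low Γ μ a ⊆ Low Γ μ b := by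
  intro x hx δ hδ ε hε
  refine (hx δ hδ ε hε).mono fun n hn => le_trans (Real.exp_le_exp.2 ?_) hn
  have hn0 : (0 : ℝ) ≤ n := Nat.cast_nonneg n
  nlinarith

theorem F2_BA {α : ℝ → ℝ} (h : BA (1 / 8) α) : BA (1 / 4) α :=
  ⟨⟨h.1.1, fun x hx => (h.1.2 x hx).trans (by norm_num)⟩, h.2⟩

/-- the end of the computation -/
theorem F2_end (m δ' q t c6 E Bv Rq pm ρ1 δ1 : ℝ) (hm : 3 / 8 ≤ m) (hm1 : m ≤ 1) (hd0 : 0 < δ') (hd1 : δ' ≤ c6 / 20) (hd2 : δ' ≤ 1 / 100) (hq0 : 0 < q) (hq1 : q ≤ c6 / 20)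
    (hq2 : q ≤ 1 / 100) (hq3 : q ≤ δ1 / 4) (ht0 : 0 < t) (ht1 : t ≤ c6 / 100) (ht2 : t ≤ 1 / 1000) (hR : |Rq - 1| ≤ t)
    (h1 : (m - δ' - q - t) * Rq < E - 1 / q * Bv) (hB0 : 0 ≤ Bv) (hE : E ≤ Rq) :
    1 / 5 ≤ E ∧ Bv ≤ δ1 ∧ (E ≤ 1 / 2 + c6 / 20 + 500 * (ρ1 + pm) - c6 → ρ1 ≤ pm → 1000 * pm ≤ c6 / 20 → m ≤ 1 / 2 - c6 / 4) := by
  obtain ⟨r1, r2⟩ := abs_le.1 hR
  have hb0 : 0 < m - δ' - q - t := by linarith
  have hb1 : m - δ' - q - t ≤ 1 := by linarith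
  have a1 : m - δ' - q - t - t ≤ (m - δ' - q - t) * Rq := by nlinarith
  have a2 : 0 ≤ 1 / q * Bv := by positivity
  have a3 : m - δ' - q - 2 * t ≤ E := by linarith
  have a4 : 1 / q * Bv ≤ 2 := by
    have : 0 ≤ (m - δ' - q - t) * Rq := mul_nonneg hb0.le (by linarith)
    linarith
  have a5 : Bv ≤ 2 * q := by
    have h5 : 1 / q * Bv * q ≤ 2 * q := mul_le_mul_of_nonneg_right a4 hq0.le
    have h6 : 1 / q * Bv * q = Bv := by field_simp
    linarith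
  refine ⟨by linarith, by linarith, fun h2 h3 h4 => ?_⟩
  linarith

theorem FN2b_proof (h1 : FN1_stmt) (h2 : KCH_stmt) (h3 : MS.NM3_stmt) (hXFL : EN.XFL_stmt) (hXTX : EN.XTX_stmt) (hFL0 : RS.FL0_stmt) (hCV1 : RS.CV1_stmt)
    (hGBD : RS.GBD_stmt) (hGFD : RS.GFD_stmt) : FN2_stmt := by
  obtain ⟨y0, hy0, hF⟩ := h1
  intro β α hβ hα
  have hα4 : BA (1 / 4) α := F2_BA hα
  obtain ⟨c6, δ1, hc6, hδ1, hF⟩ := hF β α hβ hα
  obtain ⟨q, hq0, hq1, hq2, hq3⟩ : ∃ q : ℝ, 0 < q ∧ q ≤ c6 / 20 ∧ q ≤ 1 / 100 ∧ q ≤ δ1 / 4 :=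
    ⟨min (c6 / 20) (min (1 / 100) (δ1 / 4)), lt_min (by positivity) (lt_min (by norm_num) (by positivity)), min_le_left _ _,
      (min_le_right _ _).trans (min_le_left _ _), (min_le_right _ _).trans (min_le_right _ _)⟩
  obtain ⟨J, hJ⟩ := exists_nat_ge (4 * ((y0 : ℝ) + 2) / q ^ 2 + 1)
  have hJ1r : (1 : ℝ) ≤ J := le_trans (by have : 0 ≤ 4 * ((y0 : ℝ) + 2) / q ^ 2 := by positivity
                                          linarith) hJ
  have hJ1 : 1 ≤ J := by exact_mod_cast hJ1r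
  have hJ0 : (0 : ℝ) < J := by linarith
  have hJ2 : ((y0 : ℝ) + 2) * (2 * (1 / J)) ≤ q ^ 2 / 2 := by
    have e1 : 4 * ((y0 : ℝ) + 2) / q ^ 2 ≤ J := by linarith
    rw [div_le_iff₀ (by positivity)] at e1
    have e2 : ((y0 : ℝ) + 2) * (2 * (1 / J)) = (4 * (y0 + 2)) / (2 * J) := by field_simp; ring
    rw [e2, div_le_iff₀ (by positivity)]
    linarith
  obtain ⟨pm, hp0, hp1, hp2⟩ : ∃ pm : ℝ, 0 < pm ∧ pm ≤ 1 / 4000 ∧ 1000 * pm ≤ c6 / 20 :=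
    ⟨min (1 / 4000) (c6 / 20000), lt_min (by norm_num) (by positivity), min_le_left _ _, by
      have := min_le_right (1 / 4000) (c6 / 20000)
      linarith⟩
  refine ⟨min (c6 / 4) (1 / 8), pm / (J + 1), lt_min (by positivity) (by norm_num), by positivity, ?_⟩
  intro Γ F r φ μ hΓ hF0 hr hφ hn hμ hfl hMP
  obtain ⟨i, hiJ, hi⟩ := F2_pigeon (fun i => μ.real (Low Γ μ (pm * ((i : ℝ) + 1) / (J + 1)))) J hJ1 measureReal_nonneg measureReal_le_one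
  have hiJ' : (i : ℝ) + 1 ≤ J := by exact_mod_cast hiJ
  have hi0 : (0 : ℝ) ≤ i := Nat.cast_nonneg i
  obtain ⟨ρ1, hρ1⟩ : ∃ ρ1 : ℝ, ρ1 = pm * ((i : ℝ) + 1) / (J + 1) := ⟨_, rfl⟩
  obtain ⟨ρ2, hρ2⟩ : ∃ ρ2 : ℝ, ρ2 = pm * (((i + 1 : ℕ) : ℝ) + 1) / (J + 1) := ⟨_, rfl⟩
  rw [← hρ1, ← hρ2] at hi
  have hρ10 : 0 ≤ ρ1 := by rw [hρ1]; positivity
  have hρ12 : ρ1 < ρ2 := by
    rw [hρ1, hρ2]
    apply div_lt_div_of_pos_right _ (by positivity)
    push_cast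
    nlinarith
  have hρ1p : ρ1 ≤ pm := by
    rw [hρ1, div_le_iff₀ (by positivity)]
    nlinarith
  have hρ01 : pm / (J + 1) ≤ ρ1 := by
    rw [hρ1]
    apply div_le_div_of_nonneg_right _ (by positivity)
    nlinarith
  have hm0 : μ.real (Low Γ μ (pm / (J + 1))) ≤ μ.real (Low Γ μ ρ1) := measureReal_mono (F2_mono Γ μ _ _ hρ01)
  have hm1 : μ.real (Low Γ μ ρ1) ≤ 1 := measureReal_le_one
  rcases lt_or_ge (μ.real (Low Γ μ ρ1)) (3 / 8) with hm | hm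
  · have := min_le_right (c6 / 4) (1 / 8 : ℝ)
    linarith
  obtain ⟨a1, ha1, hF1⟩ := hF (c6 / 20) (by positivity) Γ F hΓ hF0
  obtain ⟨δ', hd0, hd1, hd2, hd3⟩ : ∃ δ' : ℝ, 0 < δ' ∧ δ' ≤ c6 / 20 ∧ δ' ≤ 1 / 100 ∧ ((y0 : ℝ) + 2) * δ' ≤ q ^ 2 / 2 := by
    refine ⟨min (c6 / 20) (min (1 / 100) (q ^ 2 / 2 / (y0 + 2))), lt_min (by positivity) (lt_min (by norm_num) (by positivity)), min_le_left _ _,
      (min_le_right _ _).trans (min_le_left _ _), ?_⟩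
    have e1 : min (c6 / 20) (min (1 / 100) (q ^ 2 / 2 / ((y0 : ℝ) + 2))) ≤ q ^ 2 / 2 / (y0 + 2) := (min_le_right _ _).trans (min_le_right _ _)
    have e2 := mul_le_mul_of_nonneg_left e1 (show (0 : ℝ) ≤ (y0 : ℝ) + 2 by positivity)
    have e3 : ((y0 : ℝ) + 2) * (q ^ 2 / 2 / (y0 + 2)) = q ^ 2 / 2 := by field_simp
    linarith
  obtain ⟨a, Ck, ha, haa, ha8, hCk, hK⟩ := h2 Γ μ ρ1 ρ2 (1 / J) δ' pm a1 hΓ hμ hfl hρ10 hρ12 hi (by positivity) hd0 hp0 ha1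
  obtain ⟨n1, hF2⟩ := hF1 a Ck ha haa hCk
  obtain ⟨N0, A, κ, κa, κn, κl, hN0, hCO, κX, hκc, hκk, hκm, hκb⟩ := hK (max n1 2)
  have hN1 : n1 ≤ N0 := (le_max_left _ _).trans hN0
  have hN2 : 2 ≤ N0 := (le_max_right _ _).trans hN0
  obtain ⟨R0, hR0, hF3⟩ := hF2 N0 (ρ1 + pm) A κ κa κn κl hN1 (by linarith) (by linarith) hCO
  obtain ⟨hBc, hBk, hB01, hBi⟩ := F2_BX hXFL hXTX Γ hΓ κ κX hκc hκk hCO.k01 N0 y0 hN2
  have hBint : ∫ x, F2_B Γ κX N0 y0 x ∂μ ≤ q ^ 2 := by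
    have e1 := hBi μ (2 * (1 / J) + δ') hμ hκb
    have e2 : ((y0 : ℝ) + 2) * (2 * (1 / J) + δ') = ((y0 : ℝ) + 2) * (2 * (1 / J)) + (y0 + 2) * δ' := by ring
    linarith
  obtain ⟨hcX, hTX, hSX⟩ := hXTX Γ hΓ
  obtain ⟨-, -, hmkc, -, hsur, -⟩ := hXFL Γ
  have hX01 : ∀ x, 0 ≤ κX x ∧ κX x ≤ 1 := by
    intro x
    obtain ⟨g, rfl⟩ := hsur x
    rw [hκk]
    exact hCO.k01 g
  have hy2 : (0 : ℝ) ≤ (y0 : ℝ) + 2 := by positivity
  have hκi : Integrable κX μ := APL_ii μ hκc (B := 1) fun x => by rw [abs_of_nonneg (hX01 x).1]; exact (hX01 x).2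
  have hBi' : Integrable (F2_B Γ κX N0 y0) μ := APL_ii μ hBc (B := y0 + 2) fun x => by rw [abs_of_nonneg (hB01 x).1]; exact (hB01 x).2
  obtain ⟨t, ht0, ht1, ht2⟩ : ∃ t : ℝ, 0 < t ∧ t ≤ c6 / 100 ∧ t ≤ 1 / 1000 :=
    ⟨min (c6 / 100) (1 / 1000), lt_min (by positivity) (by norm_num), min_le_left _ _, min_le_right _ _⟩
  have hΨc : Continuous fun x => κX x - 1 / q * F2_B Γ κX N0 y0 x := hκc.sub (continuous_const.mul hBc)
  have hΨi : μ.real (Low Γ μ ρ1) - δ' - q - t < ∫ x, (κX x - 1 / q * F2_B Γ κX N0 y0 x) ∂μ := by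
    rw [integral_sub hκi (hBi'.const_mul _), integral_const_mul]
    have e1 : 1 / q * ∫ x, F2_B Γ κX N0 y0 x ∂μ ≤ 1 / q * q ^ 2 := mul_le_mul_of_nonneg_left hBint (by positivity)
    have e2 : 1 / q * q ^ 2 = q := by field_simp
    linarith
  obtain ⟨rN, hrN, hNM⟩ := h3 Γ F α β hΓ hF0 hα4 hβ t ht0
  have hfreq := hMP (fun x => κX x - 1 / q * F2_B Γ κX N0 y0 x) _ hΨc hΨi
  obtain ⟨k, ⟨t1, ht1a, ht1b, hk1⟩, hk2⟩ := (hfreq.and_eventually (hr.eventually_ge_atTop (max R0 rN))).exists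
  have hkR : R0 ≤ r k := (le_max_left _ _).trans hk2
  have hkN : rN ≤ r k := (le_max_right _ _).trans hk2
  have hrk : 0 < r k := by linarith
  have hEL : EigL Γ (1 / 4 + r k ^ 2) (φ k) :=
    ⟨(hφ k).1.of_le (WithTop.coe_le_coe.2 (le_top : (2 : ℕ∞) ≤ ⊤)), (hφ k).2.1, fun z => by rw [(hφ k).2.2 z]⟩
  have hRq := (hNM (r k) hkN).2 (φ k) hEL
  rw [hn k, mul_one] at hRq
  obtain ⟨hpc, hpb⟩ := APL_pfm hFL0 hCV1 hGBD hΓ hβ hα4 (r := r k) hEL
  haveI hPf : IsFiniteMeasure (PM F β α (r k) (φ k)) := PM_fin hGFD hΓ hF0 hrk.le hpc hpb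
  have hPI : ∀ f : SL(2, ℝ) → ℝ, ∫ g, f g ∂(PM F β α (r k) (φ k)) = EX F β α (r k) (φ k) f := PM_int F β α (r k) (φ k) hrk.le hpc
  have htc : Continuous fun g : SL(2, ℝ) => mkX Γ (g * aM t1) := hmkc.comp (continuous_id.mul continuous_const)
  have hc1 : Continuous fun g : SL(2, ℝ) => κ (g * aM t1) := by
    have : (fun g : SL(2, ℝ) => κ (g * aM t1)) = fun g => κX (mkX Γ (g * aM t1)) := by
      funext g
      rw [hκk]
    rw [this]
    exact hκc.comp htc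
  have hc2 : Continuous fun g : SL(2, ℝ) => Bd κ N0 y0 (g * aM t1) := by
    have : (fun g : SL(2, ℝ) => Bd κ N0 y0 (g * aM t1)) = fun g => F2_B Γ κX N0 y0 (mkX Γ (g * aM t1)) := by
      funext g
      rw [hBk]
    rw [this]
    exact hBc.comp htc
  have hB01' : ∀ g, 0 ≤ Bd κ N0 y0 g ∧ Bd κ N0 y0 g ≤ y0 + 2 := fun g => by rw [← hBk]; exact hB01 _
  have i1 : Integrable (fun g => κ (g * aM t1)) (PM F β α (r k) (φ k)) :=
    Integrable.of_bound hc1.measurable.aestronglyMeasurable 1 (Eventually.of_forall fun g => by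
      rw [Real.norm_eq_abs, abs_of_nonneg (hCO.k01 _).1]
      exact (hCO.k01 _).2)
  have i2 : Integrable (fun g => Bd κ N0 y0 (g * aM t1)) (PM F β α (r k) (φ k)) :=
    Integrable.of_bound hc2.measurable.aestronglyMeasurable (y0 + 2) (Eventually.of_forall fun g => by
      rw [Real.norm_eq_abs, abs_of_nonneg (hB01' _).1]
      exact (hB01' _).2)
  have hE0 : EX F β α (r k) (φ k) (fun g => κ (g * aM t1) - 1 / q * Bd κ N0 y0 (g * aM t1)) =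
      EX F β α (r k) (φ k) (fun g => κ (g * aM t1)) - 1 / q * EX F β α (r k) (φ k) (fun g => Bd κ N0 y0 (g * aM t1)) := by
    rw [← hPI, ← hPI, ← hPI, integral_sub i1 (i2.const_mul _), integral_const_mul]
  have hone : EX F β α (r k) (φ k) (fun _ => 1) = r k * qn F (pc β α) (r k) (φ k) := by
    unfold EX iR
    simp only [one_mul]
    rfl
  have hE1 : EX F β α (r k) (φ k) (fun g => κ (g * aM t1)) ≤ r k * qn F (pc β α) (r k) (φ k) := by
    rw [← hone, ← hPI, ← hPI]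
    exact integral_mono i1 (integrable_const _) fun g => (hCO.k01 _).2
  have hB0 : 0 ≤ EX F β α (r k) (φ k) (fun g => Bd κ N0 y0 (g * aM t1)) := by
    rw [← hPI]
    exact integral_nonneg fun g => (hB01' _).1
  have hk3 : (μ.real (Low Γ μ ρ1) - δ' - q - t) * (r k * qn F (pc β α) (r k) (φ k)) <
      EX F β α (r k) (φ k) (fun g => κ (g * aM t1)) - 1 / q * EX F β α (r k) (φ k) (fun g => Bd κ N0 y0 (g * aM t1)) := by
    rw [← hE0]
    have e1 := mul_lt_mul_of_pos_left hk1 hrk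
    have e2 : (fun g => (fun x => κX x - 1 / q * F2_B Γ κX N0 y0 x) (mkX Γ (g * aM t1)) * ‖pf β α (r k) (φ k) g‖ ^ 2) =
        fun g => (κ (g * aM t1) - 1 / q * Bd κ N0 y0 (g * aM t1)) * ‖pf β α (r k) (φ k) g‖ ^ 2 := by
      funext g
      simp only [hκk, hBk]
    rw [e2] at e1
    unfold EX
    linarith
  obtain ⟨e1, e2, e3⟩ := F2_end (μ.real (Low Γ μ ρ1)) δ' q t c6 (EX F β α (r k) (φ k) (fun g => κ (g * aM t1)))
    (EX F β α (r k) (φ k) (fun g => Bd κ N0 y0 (g * aM t1))) (r k * qn F (pc β α) (r k) (φ k)) pm ρ1 δ1 hm hm1 hd0 hd1 hd2 hq0 hq1 hq2 hq3 ht0 ht1 ht2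
    hRq hk3 hB0 hE1
  have e4 := e3 (hF3 (r k) t1 (φ k) hkR hEL (hn k) ht1a ht1b e1 e2) hρ1p hp2
  have := min_le_left (c6 / 4) (1 / 8 : ℝ)
  linarith

end Pool.Agent.T1
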