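import Pool.Agent.helper80.T1.SpecO

/-!
# MP_07c750, project T1: row OCB (the profiles of the cells)
-/

set_option autoImplicit false

open scoped MatrixGroups ContDiff Topology UpperHalfPlane ComplexConjugate
open UpperHalfPlane MeasureTheory Filter Set

namespace Pool.Agent.T1

open Pool.Agent.RS Pool.Agent.MS Pool.Agent.HV

/-- bounds for a smooth function with bounded support -/
theorem OCB_bdd (J : ℕ) (R : ℝ) (f : ℝ → ℝ) (h : ContDiff ℝ ∞ f) (hs : ∀ x, f x ≠ 0 → |x| ≤ R) :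
    ∃ M : ℝ, 1 ≤ M ∧ ∀ j ≤ J, ∀ x, |iteratedDeriv j f x| ≤ M := by
  have h1 : ∀ j : ℕ, ∃ C : ℝ, 0 ≤ C ∧ ∀ x, |iteratedDeriv j f x| ≤ C := by
    intro j
    have hc : Continuous (iteratedDeriv j f) :=
      ContDiff.continuous_iteratedDeriv j h (by exact_mod_cast le_top)
    obtain ⟨C, hC⟩ := isCompact_Icc.exists_bound_of_continuousOn (s := Icc (-R : ℝ) R) hc.continuousOn
    refine ⟨max C 0, le_max_right _ _, fun x => ?_⟩
    by_cases hx : x ∈ Icc (-R : ℝ) R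
    · exact (hC x hx).trans (le_max_left _ _)
    · have hz : f =ᶠ[𝓝 x] fun _ => 0 := by
        have ho : (Icc (-R : ℝ) R)ᶜ ∈ 𝓝 x := isClosed_Icc.isOpen_compl.mem_nhds hx
        filter_upwards [ho] with y hy
        by_contra hne
        exact hy (abs_le.1 (hs y hne))
      rw [hz.iteratedDeriv_eq j, iteratedDeriv_fun_const_zero, abs_zero]
      exact le_max_right _ _
  choose C hC0 hC using h1
  refine ⟨1 + ∑ j ∈ Finset.range (J + 1), C j, ?_, fun j hj x => ?_⟩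
  · have := Finset.sum_nonneg (s := Finset.range (J + 1)) (f := C) (fun j _ => hC0 j)
    linarith
  · have h2 : C j ≤ ∑ j ∈ Finset.range (J + 1), C j :=
      Finset.single_le_sum (f := C) (fun j _ => hC0 j) (Finset.mem_range.2 (by omega))
    have h3 := hC j x
    linarith

theorem OCB_der (f : ℝ → ℝ) (h : ContDiff ℝ ∞ f) (ε s : ℝ) (i : ℕ) (x : ℝ) :
    iteratedDeriv i (fun x => f (x / ε - s)) x = (ε⁻¹) ^ i * iteratedDeriv i f (x / ε - s) := by
  have e : (fun x => f (x / ε - s)) = fun x => (fun y => f (y - s)) (ε⁻¹ * x) := by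
    funext y
    simp only []
    rw [show ε⁻¹ * y = y / ε by rw [div_eq_mul_inv, mul_comm]]
  have hc : ContDiff ℝ i (fun y => f (y - s)) :=
    (h.comp (contDiff_id.sub contDiff_const)).of_le (by exact_mod_cast le_top)
  rw [e, iteratedDeriv_comp_const_mul hc, iteratedDeriv_comp_sub_const]
  simp only []
  rw [show ε⁻¹ * x = x / ε by rw [div_eq_mul_inv, mul_comm]]

theorem OCB_prod (β f : ℝ → ℝ) (hβ : ContDiff ℝ ∞ β) (hf : ContDiff ℝ ∞ f) (C1 C2 : ℝ) (h1 : 1 ≤ C1) (h2 : 1 ≤ C2)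
    (hb1 : ∀ j ≤ 4, ∀ x, |iteratedDeriv j β x| ≤ C1) (hb2 : ∀ j ≤ 4, ∀ x, |iteratedDeriv j f x| ≤ C2)
    (ε s : ℝ) (hε : 0 < ε) (hε1 : ε ≤ 1) (j : ℕ) (hj : j ≤ 4) (x : ℝ) :
    |iteratedDeriv j (fun x => β x * f (x / ε - s)) x| ≤ 16 * C1 * C2 / ε ^ 4 := by
  have hβ' : ContDiffAt ℝ j β x := (hβ.of_le (by exact_mod_cast le_top)).contDiffAt
  have hf' : ContDiffAt ℝ j (fun x => f (x / ε - s)) x :=
    ((hf.comp ((contDiff_id.div_const ε).sub contDiff_const)).of_le (by exact_mod_cast le_top)).contDiffAt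
  rw [iteratedDeriv_fun_mul hβ' hf']
  have hinv : 1 ≤ ε⁻¹ := (one_le_inv₀ hε).2 hε1
  have hterm : ∀ i ∈ Finset.range (j + 1), |(j.choose i : ℝ) * iteratedDeriv i β x * iteratedDeriv (j - i) (fun x => f (x / ε - s)) x|
      ≤ (j.choose i : ℝ) * (C1 * C2 / ε ^ 4) := by
    intro i hi
    have hi' : i ≤ j := Nat.lt_succ_iff.1 (Finset.mem_range.1 hi)
    rw [OCB_der f hf, abs_mul, abs_mul, abs_mul, abs_of_nonneg (Nat.cast_nonneg (j.choose i)), abs_of_nonneg (by positivity : (0 : ℝ) ≤ ε⁻¹ ^ (j - i)), mul_assoc]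
    refine mul_le_mul_of_nonneg_left ?_ (Nat.cast_nonneg _)
    have a1 := hb1 i (hi'.trans hj) x
    have a2 := hb2 (j - i) ((Nat.sub_le _ _).trans hj) (x / ε - s)
    have a3 : ε⁻¹ ^ (j - i) ≤ ε⁻¹ ^ 4 := pow_le_pow_right₀ hinv ((Nat.sub_le _ _).trans hj)
    have a4 : C1 * C2 / ε ^ 4 = C1 * (ε⁻¹ ^ 4 * C2) := by
      rw [inv_pow]
      field_simp
    rw [a4]
    exact mul_le_mul a1 (mul_le_mul a3 a2 (abs_nonneg _) (by positivity)) (by positivity) (by linarith)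
  refine (Finset.abs_sum_le_sum_abs _ _).trans ((Finset.sum_le_sum hterm).trans ?_)
  rw [← Finset.sum_mul]
  have hs : (∑ i ∈ Finset.range (j + 1), (j.choose i : ℝ)) = 2 ^ j := by
    exact_mod_cast Nat.sum_range_choose j
  rw [hs]
  have h16 : (2 : ℝ) ^ j ≤ 16 := by
    have : (2 : ℝ) ^ j ≤ 2 ^ 4 := pow_le_pow_right₀ (by norm_num) hj
    linarith
  have hpos : 0 ≤ C1 * C2 / ε ^ 4 := by positivity
  calc (2 : ℝ) ^ j * (C1 * C2 / ε ^ 4) ≤ 16 * (C1 * C2 / ε ^ 4) := mul_le_mul_of_nonneg_right h16 hpos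
    _ = 16 * C1 * C2 / ε ^ 4 := by ring

theorem OCB_proof : OCB_stmt := by
  intro χ β hχ hβ
  obtain ⟨C1, h1, hb1⟩ := OCB_bdd 4 (1 / 4) β hβ.1 hβ.2
  obtain ⟨C2, h2, hb2⟩ := OCB_bdd 4 1 χ hχ.sm hχ.sp
  have hg : ContDiff ℝ ∞ (fun y => Real.pi / 2 * y * χ y) := (contDiff_const.mul contDiff_id).mul hχ.sm
  obtain ⟨C3, h3, hb3⟩ := OCB_bdd 4 1 (fun y => Real.pi / 2 * y * χ y) hg (fun y hy => hχ.sp y (right_ne_zero_of_mul hy))
  refine ⟨16 * C1 * (C2 + C3), by nlinarith, fun ε j hε hε1 => ⟨⟨⟨?_, ?_⟩, ?_⟩, ⟨⟨?_, ?_⟩, ?_⟩⟩⟩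
  · exact hβ.1.mul (hχ.sm.comp ((contDiff_id.div_const ε).sub contDiff_const))
  · intro x hx
    exact hβ.2 x (left_ne_zero_of_mul hx)
  · intro i hi x
    have := OCB_prod β χ hβ.1 hχ.sm C1 (C2 + C3) h1 (by linarith) hb1 (fun j hj x => (hb2 j hj x).trans (by linarith)) ε j hε hε1 i hi x
    exact this
  · have e : b1 χ β ε j = fun x => Real.pi / 2 * (x / ε - j) * (β x * χ (x / ε - j)) := rfl
    rw [e]
    exact (contDiff_const.mul ((contDiff_id.div_const ε).sub contDiff_const)).mul (hβ.1.mul (hχ.sm.comp ((contDiff_id.div_const ε).sub contDiff_const)))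
  · intro x hx
    exact hβ.2 x (left_ne_zero_of_mul (right_ne_zero_of_mul hx))
  · intro i hi x
    have := OCB_prod β (fun y => Real.pi / 2 * y * χ y) hβ.1 hg C1 (C2 + C3) h1 (by linarith) hb1 (fun j hj x => (hb3 j hj x).trans (by linarith)) ε j hε hε1 i hi x
    have e : b1 χ β ε j = fun x => β x * (fun y => Real.pi / 2 * y * χ y) (x / ε - j) := by
      funext y
      show Real.pi / 2 * (y / ε - j) * (β y * χ (y / ε - j)) = β y * (Real.pi / 2 * (y / ε - j) * χ (y / ε - j))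
      ring
    rw [e]
    exact this

end Pool.Agent.T1
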