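import Pool.Agent.helper46.T1.SpecP
import Pool.Agent.helper41.MS.EQ4

/-! Project T1 (MP_07c750_an), row PMN: the window averages are neither almost zero nor almost one. -/

set_option autoImplicit false

open scoped MatrixGroups ContDiff Topology UpperHalfPlane ComplexConjugate
open UpperHalfPlane MeasureTheory Filter Set

namespace Pool.Agent.TP

open Pool.Agent.RS Pool.Agent.MS

theorem PMN_int {Ω : Type} [MeasurableSpace Ω] {μ : Measure Ω} {S : Set Ω} (hS : μ S < ⊤) {f : Ω → ℝ}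
    (hf : Measurable f) (hb : ∃ m : ℝ, ∀ x, |f x| ≤ m) : IntegrableOn f S μ := by
  obtain ⟨m, hm⟩ := hb
  have : IsFiniteMeasure (μ.restrict S) := ⟨by rwa [Measure.restrict_apply_univ]⟩
  exact Integrable.of_bound hf.aestronglyMeasurable m (Filter.Eventually.of_forall fun g => by
      rw [Real.norm_eq_abs]
      exact hm g)

/-- the weighted measure -/
theorem PMN_P {Ω : Type} [MeasurableSpace Ω] (μ : Measure Ω) (S : Set Ω) (hS : μ S < ⊤) (Y : Ω → ℝ)
    (hY : Measurable Y) (hY0 : ∀ x, 0 ≤ Y x) (m : ℝ) (hYm : ∀ x, Y x ≤ m) (r : ℝ) (hr : 0 ≤ r) :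
    ∃ P : Measure Ω, IsFiniteMeasure P ∧ ∀ f : Ω → ℝ, ∫ x, f x ∂P = r * ∫ x in S, f x * Y x ∂μ := by
  refine ⟨(μ.restrict S).withDensity (fun x => ENNReal.ofReal (r * Y x)), ?_, ?_⟩
  · have : IsFiniteMeasure (μ.restrict S) := ⟨by rwa [Measure.restrict_apply_univ]⟩
    have h1 : IntegrableOn (fun x => r * Y x) S μ := PMN_int hS (hY.const_mul r) ⟨r * m, fun x => by
      rw [abs_of_nonneg (mul_nonneg hr (hY0 x))]
      exact mul_le_mul_of_nonneg_left (hYm x) hr⟩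
    exact isFiniteMeasure_withDensity_ofReal h1.2
  · intro f
    rw [integral_withDensity_eq_integral_toReal_smul (hY.const_mul r).ennreal_ofReal
      (Filter.Eventually.of_forall fun x => ENNReal.ofReal_lt_top), ← integral_const_mul]
    refine integral_congr_ae (Filter.Eventually.of_forall fun x => ?_)
    show (ENNReal.ofReal (r * Y x)).toReal • f x = r * (f x * Y x)
    rw [ENNReal.toReal_ofReal (mul_nonneg hr (hY0 x)), smul_eq_mul]
    ring

theorem PMN_set1 {Ω : Type} [MeasurableSpace Ω] (μ : Measure Ω) (S B : Set Ω) (hSm : MeasurableSet S)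
    (hS : μ S < ⊤) (k κ Y : Ω → ℝ) (hk : Measurable k) (hκ : Measurable κ) (hY : Measurable Y)
    (hk1 : ∀ x, 0 ≤ k x ∧ k x ≤ 1) (hκ1 : ∀ x, 0 ≤ κ x ∧ κ x ≤ 1) (hY0 : ∀ x, 0 ≤ Y x) (m : ℝ)
    (hYm : ∀ x, Y x ≤ m) (hB : ∀ x, κ x ≠ 0 → x ∈ B) :
    ∫ x in S \ B, k x ^ 2 * Y x ∂μ ≤ ∫ x in S, (k x * (1 - κ x)) * Y x ∂μ := by
  have hB' : MeasurableSet {x | κ x ≠ 0} := (hκ (measurableSet_singleton (0 : ℝ))).compl
  have hm0 : ∀ x, 0 ≤ m := fun x => (hY0 x).trans (hYm x)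
  have i1 : IntegrableOn (fun x => k x ^ 2 * Y x) S μ := PMN_int hS ((hk.pow_const 2).mul hY)
    ⟨m, fun x => by
      obtain ⟨a1, a2⟩ := hk1 x
      have a3 := hY0 x
      have a4 := hYm x
      have a5 : k x ^ 2 ≤ 1 := pow_le_one₀ a1 a2
      rw [abs_of_nonneg (by positivity)]
      nlinarith⟩
  have i2 : IntegrableOn (fun x => (k x * (1 - κ x)) * Y x) S μ :=
    PMN_int hS ((hk.mul (measurable_const.sub hκ)).mul hY)
    ⟨m, fun x => by
      obtain ⟨a1, a2⟩ := hk1 x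
      obtain ⟨b1, b2⟩ := hκ1 x
      have a3 := hY0 x
      have a4 := hYm x
      have b3 : 0 ≤ 1 - κ x := by linarith
      have a5 : k x * (1 - κ x) ≤ 1 := mul_le_one₀ a2 b3 (by linarith)
      rw [abs_of_nonneg (by positivity)]
      have a6 : 0 ≤ k x * (1 - κ x) := by positivity
      nlinarith⟩
  have hsub : S \ B ⊆ S \ {x | κ x ≠ 0} := fun x hx => ⟨hx.1, fun h => hx.2 (hB x h)⟩
  calc ∫ x in S \ B, k x ^ 2 * Y x ∂μ ≤ ∫ x in S \ {x | κ x ≠ 0}, k x ^ 2 * Y x ∂μ := by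
        apply setIntegral_mono_set (i1.mono_set sdiff_subset)
        · exact Filter.Eventually.of_forall fun x => mul_nonneg (sq_nonneg _) (hY0 x)
        · exact hsub.eventuallyLE
    _ ≤ ∫ x in S \ {x | κ x ≠ 0}, (k x * (1 - κ x)) * Y x ∂μ := by
        apply setIntegral_mono_on (i1.mono_set sdiff_subset) (i2.mono_set sdiff_subset) (hSm.diff hB')
        intro x hx
        have h0 : κ x = 0 := by
          by_contra h
          exact hx.2 h
        obtain ⟨a1, a2⟩ := hk1 x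
        show k x ^ 2 * Y x ≤ (k x * (1 - κ x)) * Y x
        rw [h0, sub_zero, mul_one]
        exact mul_le_mul_of_nonneg_right (by nlinarith) (hY0 x)
    _ ≤ ∫ x in S, (k x * (1 - κ x)) * Y x ∂μ := by
        apply setIntegral_mono_set i2
        · exact Filter.Eventually.of_forall fun x =>
            mul_nonneg (mul_nonneg (hk1 x).1 (by linarith [(hκ1 x).2])) (hY0 x)
        · exact sdiff_subset.eventuallyLE

theorem PMN_set2 {Ω : Type} [MeasurableSpace Ω] (μ : Measure Ω) (S D : Set Ω) (hSm : MeasurableSet S)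
    (hS : μ S < ⊤) (k κ Y : Ω → ℝ) (hk : Measurable k) (hκ : Measurable κ) (hY : Measurable Y)
    (hk1 : ∀ x, 0 ≤ k x ∧ k x ≤ 1) (hκ1 : ∀ x, 0 ≤ κ x ∧ κ x ≤ 1) (hY0 : ∀ x, 0 ≤ Y x) (m : ℝ)
    (hYm : ∀ x, Y x ≤ m) (hD : ∀ x, κ x ≠ 0 → x ∈ D) :
    ∫ x in S, (k x ^ 2 * κ x) * Y x ∂μ ≤ ∫ x in S ∩ D, k x ^ 2 * Y x ∂μ := by
  have hD' : MeasurableSet {x | κ x ≠ 0} := (hκ (measurableSet_singleton (0 : ℝ))).compl
  have i1 : IntegrableOn (fun x => k x ^ 2 * Y x) S μ := PMN_int hS ((hk.pow_const 2).mul hY)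
    ⟨m, fun x => by
      obtain ⟨a1, a2⟩ := hk1 x
      have a3 := hY0 x
      have a4 := hYm x
      have a5 : k x ^ 2 ≤ 1 := pow_le_one₀ a1 a2
      rw [abs_of_nonneg (by positivity)]
      nlinarith⟩
  have i2 : IntegrableOn (fun x => (k x ^ 2 * κ x) * Y x) S μ :=
    PMN_int hS (((hk.pow_const 2).mul hκ).mul hY)
    ⟨m, fun x => by
      obtain ⟨a1, a2⟩ := hk1 x
      obtain ⟨b1, b2⟩ := hκ1 x
      have a3 := hY0 x
      have a4 := hYm x
      have a5 : k x ^ 2 * κ x ≤ 1 := mul_le_one₀ (pow_le_one₀ a1 a2) b1 b2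
      rw [abs_of_nonneg (by positivity)]
      have a6 : 0 ≤ k x ^ 2 * κ x := by positivity
      nlinarith⟩
  have e1 : ∫ x in S, (k x ^ 2 * κ x) * Y x ∂μ = ∫ x in S ∩ {x | κ x ≠ 0}, (k x ^ 2 * κ x) * Y x ∂μ := by
    apply setIntegral_eq_of_subset_of_forall_sdiff_eq_zero hSm inter_subset_left
    intro x hx
    have h0 : κ x = 0 := by
      by_contra h
      exact hx.2 ⟨hx.1, h⟩
    rw [h0, mul_zero, zero_mul]
  rw [e1]
  calc ∫ x in S ∩ {x | κ x ≠ 0}, (k x ^ 2 * κ x) * Y x ∂μ ≤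
      ∫ x in S ∩ {x | κ x ≠ 0}, k x ^ 2 * Y x ∂μ := by
        apply setIntegral_mono_on (i2.mono_set inter_subset_left) (i1.mono_set inter_subset_left)
          (hSm.inter hD')
        intro x hx
        have h1 := hκ1 x
        apply mul_le_mul_of_nonneg_right _ (hY0 x)
        nlinarith [sq_nonneg (k x)]
    _ ≤ ∫ x in S ∩ D, k x ^ 2 * Y x ∂μ := by
        apply setIntegral_mono_set (i1.mono_set inter_subset_left)
        · exact Filter.Eventually.of_forall fun x => mul_nonneg (sq_nonneg _) (hY0 x)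
        · exact LE.le.eventuallyLE (fun x hx => ⟨hx.1, hD x hx.2⟩)


/-- the symbol is slowly varying -/
theorem PMN_symbol (hPSF : PSF_stmt) (hPAV : PAV_stmt) {Γ : Subgroup SL(2, ℝ)}
    {κ κa κn κl : SL(2, ℝ) → ℝ} (hsf : SF Γ κ κa κn κl) (hrg : ∀ g, 0 ≤ κ g ∧ κ g ≤ 1) {C : ℝ} (hC : 1 ≤ C)
    (n : ℝ) (hbn : ∀ g, |κn g| ≤ C) (hbl : ∀ g, |κl g| ≤ C * Real.exp n) {χ χ' : ℝ → ℝ} (hχ : CB C χ χ')
    {W τ om r : ℝ} (hW : 0 < W) (hτ : 0 ≤ τ) (hom : 0 < om) (hr : 0 < r) (h1 : C ^ 2 / om ≤ W)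
    (h2 : τ + W + n ≤ Real.log r) :
    ∃ ka kn kl : SL(2, ℝ) → ℝ, SF Γ (fun g => χ (av κ W (g * aM τ))) ka kn kl ∧
      (∀ g, |ka g| ≤ om) ∧ (∀ g, |kn g| ≤ om) ∧ (∀ g, |kl g| ≤ om * r) := by
  obtain ⟨-, -, Aa, An, Al, hA, hAa, hAn, hAl⟩ := hPAV Γ κ κa κn κl W C (C * Real.exp n) hsf hrg hbn hbl hW
  have hA1 := (hPSF Γ _ _ _ _ hA).1 τ
  have hA2 := (hPSF Γ _ _ _ _ hA1).2.2.2 χ χ' hχ.ct hχ.dv
  have hC0 : 0 ≤ C := by linarith
  have h3 : C ^ 2 ≤ om * W := by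
    rw [div_le_iff₀ hom] at h1
    linarith
  have h4 : C ^ 2 / W ≤ om := by
    rw [div_le_iff₀ hW]
    exact h3
  have h5 : C * (1 / W) ≤ om := by
    refine le_trans ?_ h4
    rw [mul_one_div]
    apply div_le_div_of_nonneg_right _ hW.le
    nlinarith
  refine ⟨_, _, _, hA2, ?_, ?_, ?_⟩
  · intro g
    rw [abs_mul]
    exact (mul_le_mul (hχ.bd _) (hAa _) (abs_nonneg _) hC0).trans h5
  · intro g
    rw [abs_mul, abs_mul, abs_of_pos (Real.exp_pos _)]
    have e1 : Real.exp (-τ) ≤ 1 := Real.exp_le_one_iff.mpr (by linarith)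
    have e2 : Real.exp (-τ) * |An (g * aM τ)| ≤ C / W := by
      have e3 := hAn (g * aM τ)
      have e4 := abs_nonneg (An (g * aM τ))
      nlinarith [Real.exp_pos (-τ)]
    refine (mul_le_mul (hχ.bd _) e2 (by positivity) hC0).trans ?_
    refine le_trans (le_of_eq ?_) h4
    ring
  · intro g
    rw [abs_mul, abs_mul, abs_of_pos (Real.exp_pos _)]
    have e2 : Real.exp τ * |Al (g * aM τ)| ≤ Real.exp τ * (C * Real.exp n * Real.exp W / W) :=
      mul_le_mul_of_nonneg_left (hAl _) (Real.exp_pos _).le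
    refine (mul_le_mul (hχ.bd _) e2 (by positivity) hC0).trans ?_
    have e3 : C * (Real.exp τ * (C * Real.exp n * Real.exp W / W)) =
        C ^ 2 / W * Real.exp (τ + W + n) := by
      rw [Real.exp_add, Real.exp_add]
      ring
    rw [e3]
    have e4 : Real.exp (τ + W + n) ≤ r := by
      rw [← Real.exp_log hr]
      exact Real.exp_le_exp.mpr h2
    exact mul_le_mul h4 e4 (Real.exp_pos _).le hom.le

theorem PMN_num {w0 : ℝ} (hw0 : 0 < w0) (hw1 : w0 ≤ 1 / 8) :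
    3 / 100 * (1 + w0 / 10 ^ 5) + (2 * (⌈2 / w0⌉₊ : ℝ) + 1) * (w0 / 5000 + w0 / 10 ^ 5) + 2 * (w0 / 10 ^ 5) ≤ 33 / 1000 := by
  have h1 : (⌈2 / w0⌉₊ : ℝ) ≤ 3 / w0 := by
    have h2 := Nat.ceil_lt_add_one (show 0 ≤ 2 / w0 by positivity)
    have h3 : (1 : ℝ) ≤ 1 / w0 := by
      rw [le_div_iff₀ hw0]
      linarith
    have h4 : 3 / w0 = 2 / w0 + 1 / w0 := by ring
    linarith
  have h5 : (⌈2 / w0⌉₊ : ℝ) * w0 ≤ 3 := by
    rwa [le_div_iff₀ hw0] at h1
  nlinarith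

theorem PMN_proof (hPUP : PUP_stmt) (hPSF : PSF_stmt) (hPAV : PAV_stmt) (hPCH : PCH_stmt)
    (hPIN : PIN_stmt) (hPDD : PDD_stmt) (hEQ4 : EQ4_stmt) (hNM3 : NM3_stmt) (hSTB : STB_stmt)
    (hGFD : GFD_stmt) (hGBD : GBD_stmt) (hGLC : GLC_stmt) (hFL0 : FL0_stmt) (hCV1 : CV1_stmt) : PMN_stmt := by
  intro Γ F β α hΓ hF hβ hα
  obtain ⟨-, -, -, hstBB, hmono, -⟩ := hSTB
  have hα4 : BA (1 / 4) α := (hmono (1 / 8) (1 / 4) α (by norm_num)).2.1 hα
  obtain ⟨a1, ha1, hU⟩ := hPUP Γ F β α hΓ hF hβ hα4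
  refine ⟨a1, ha1, ?_⟩
  intro a C3 w0 ha haa1 hC3 hw0 hw1
  obtain ⟨C0, χ, χ', ζ, ζ', hC0, hχ0, hζ0, hCH, hZE⟩ := hPCH
  set C : ℝ := max C3 C0 with hC
  have hC3' : C3 ≤ C := le_max_left _ _
  have hC0' : C0 ≤ C := le_max_right _ _
  have hC1 : 1 ≤ C := hC3.trans hC3'
  have hχ : CB C χ χ' := ⟨hχ0.rg, hχ0.dv, hχ0.ct, fun x => (hχ0.bd x).trans hC0'⟩
  have hζ : CB C ζ ζ' := ⟨hζ0.rg, hζ0.dv, hζ0.ct, fun x => (hζ0.bd x).trans hC0'⟩
  set η : ℝ := w0 / 10 ^ 5 with hη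
  have hη0 : 0 < η := by positivity
  have hη1 : η ≤ 1 / 100000 := by rw [hη]; linarith
  obtain ⟨s, hs0, hI⟩ := hPIN Γ F β α hΓ hF hβ hα4 C η hC1 hη0
  obtain ⟨rI, hrI, hI⟩ := hI s le_rfl
  obtain ⟨n1, hn1, hU⟩ := hU a s (1 / 100) ha haa1 hs0 (by norm_num)
  refine ⟨n1, hn1, ?_⟩
  intro n A κ κa κn κl hn hA hK
  have hn0 : (0 : ℝ) ≤ n := hn1.trans hn
  obtain ⟨om, rU, hom, hrU, hU⟩ := hU n A hn hA (1 / 100) (by norm_num)
  have hT0 : (0 : ℝ) ≤ n + s := by linarith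
  obtain ⟨rE, hrE, hE⟩ := hEQ4 Γ F β α α (n + s) hΓ hF hβ hα hα hT0 η hη0
  obtain ⟨rN, hrN, hN⟩ := hNM3 Γ F α β hΓ hF hα4 hβ η hη0
  have hbn : ∀ g, |κn g| ≤ C := fun g => (hK.bn g).trans hC3'
  have hbl : ∀ g, |κl g| ≤ C * Real.exp n := fun g =>
    (hK.bl g).trans (mul_le_mul_of_nonneg_right hC3' (Real.exp_pos _).le)
  set L0 : ℝ := (n + s) ^ 2 + 16 * (n + s + 1) + (C ^ 2 / om + 1) / w0 with hL0
  refine ⟨rI + rU + rE + rN + Real.exp L0, by linarith [Real.exp_pos L0], ?_⟩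
  intro r φ t t1 hr hφ hnn ht1 ht1' hmass ht ht'
  have hexp := Real.exp_pos L0
  have hr1 : rI ≤ r := by linarith
  have hr2 : rU ≤ r := by linarith
  have hr3 : rE ≤ r := by linarith
  have hr4 : rN ≤ r := by linarith
  have hrpos : 0 < r := by linarith
  have hLL : L0 ≤ Real.log r := by
    rw [Real.le_log_iff_exp_le hrpos]
    linarith
  set L : ℝ := Real.log r with hL
  have hq0 : 0 ≤ (C ^ 2 / om + 1) / w0 := by positivity
  have hsq : (n + s : ℝ) ≤ Real.sqrt L := by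
    refine (le_abs_self _).trans (Real.abs_le_sqrt ?_)
    rw [hL0] at hLL
    linarith
  have hL16 : 16 * (n + s + 1 : ℝ) ≤ L := by
    rw [hL0] at hLL
    have := sq_nonneg (n + s : ℝ)
    linarith
  have hLpos : 0 < L := by linarith
  have hWC : C ^ 2 / om + 1 ≤ w0 * L := by
    rw [hL0] at hLL
    have h1 : (C ^ 2 / om + 1) / w0 ≤ L := by
      have := sq_nonneg (n + s : ℝ)
      linarith
    rw [div_le_iff₀ hw0] at h1
    linarith
  set W : ℝ := w0 * L with hW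
  have hCom : 0 ≤ C ^ 2 / om := by positivity
  have hW1 : 1 ≤ W := by linarith
  have hW0 : 0 < W := by linarith
  have hW8 : W ≤ L / 8 := by
    rw [hW]
    nlinarith
  -- functions
  have hφ' : InvC Γ φ := ⟨EQ4_cont hφ.1, hφ.2.1⟩
  obtain ⟨hY, mY, hYm⟩ := EQ4_pf hFL0 hCV1 hGBD hΓ hβ.1 hα4.1 r hφ'
  have hβ' : BB (1 / 4) (st (-(n + s)) β) := by
    refine (hmono (Real.exp (-(n + s)) * (1 / 4)) (1 / 4) (st (-(n + s)) β) ?_).2.2 (hstBB (1 / 4) (-(n + s)) β hβ)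
    have h2 : Real.exp (-(n + s : ℝ)) ≤ 1 := Real.exp_le_one_iff.2 (by linarith)
    linarith
  obtain ⟨hX, mX, hXm⟩ := EQ4_pf hFL0 hCV1 hGBD hΓ hβ'.1 hα4.1 r hφ'
  obtain ⟨⟨hm, -, hfin, -⟩, -⟩ := hGFD Γ F hΓ hF
  obtain ⟨-, hsc, -, haMc, -, -, -, -, -, -, haM, -⟩ := hGLC
  have hYc : Continuous fun g => ‖pf β α r φ g‖ ^ 2 := (hY.1.norm).pow 2
  have hXc : Continuous fun g => ‖pf (st (-(n + s)) β) α r φ g‖ ^ 2 := (hX.1.norm).pow 2
  have hY2 : ∀ g, ‖pf β α r φ g‖ ^ 2 ≤ mY ^ 2 := fun g => pow_le_pow_left₀ (norm_nonneg _) (hYm g) 2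
  have hX2 : ∀ g, ‖pf (st (-(n + s)) β) α r φ g‖ ^ 2 ≤ mX ^ 2 :=
    fun g => pow_le_pow_left₀ (norm_nonneg _) (hXm g) 2
  obtain ⟨P, hPfin, hP⟩ := PMN_P mG (dG F) hfin (fun g => ‖pf β α r φ g‖ ^ 2) hYc.measurable
    (fun g => sq_nonneg _) (mY ^ 2) hY2 r hrpos.le
  have hEv : ∀ f : SL(2, ℝ) → ℝ, ∫ g, f g ∂P = Ev F β α r φ f := fun f => hP f
  have hPu : P.real univ ≤ 1 + η := by
    have h1 : ∫ g : SL(2, ℝ), (1 : ℝ) ∂P = P.real univ := by
      rw [integral_const, smul_eq_mul, mul_one]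
    rw [← h1, hP]
    have h2 := (hN r hr4).2 φ hφ
    rw [hnn, mul_one] at h2
    have h3 := (abs_le.mp h2).2
    have h4 : r * ∫ g in dG F, 1 * ‖pf β α r φ g‖ ^ 2 ∂mG = r * qn F (pc β α) r φ := by
      simp only [one_mul]
      rfl
    rw [h4]
    linarith
  -- the path
  obtain ⟨k, hk⟩ : ∃ k : ℝ → SL(2, ℝ) → ℝ, k = fun t g => κ (g * aM t) := ⟨_, rfl⟩
  have hkv : ∀ t g, k t g = κ (g * aM t) := fun t g => by rw [hk]
  have hkm : Measurable (Function.uncurry k) := by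
    have h1 : Continuous (Function.uncurry k) := by
      rw [hk]
      exact hK.sf.i0.1.comp (continuous_snd.mul (haMc.comp continuous_fst))
    exact h1.measurable
  have hk01 : ∀ t g, 0 ≤ k t g ∧ k t g ≤ 1 := fun t g => by rw [hkv]; exact hK.rg _
  have haw : ∀ t g, aw k W t g = av κ W (g * aM t) := by
    intro t g
    unfold aw av
    have h1 : ∀ x : ℝ, k (t + x) g = κ (g * aM t * aM x) := fun x => by
      rw [hkv, haM, mul_assoc]
    simp only [h1]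
  have havc : Continuous (av κ W) := by
    obtain ⟨-, -, Aa, An, Al, hA1, -⟩ := hPAV Γ κ κa κn κl W C (C * Real.exp n) hK.sf hK.rg hbn hbl hW0
    exact hA1.i0.1
  have hχc : Continuous χ := continuous_iff_continuousAt.mpr fun x => (hχ.dv x).continuousAt
  have hζc : Continuous ζ := continuous_iff_continuousAt.mpr fun x => (hζ.dv x).continuousAt
  obtain ⟨hI1, hI2, hI3⟩ := hI n κ κa κn κl χ χ' ζ ζ' r φ hn0 hK.sf hK.rg hbn hbl hχ hζ hr1 hφ hnn W hW1
  by_contra hcon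
  push Not at hcon
  -- parameters
  obtain ⟨q, hq⟩ : ∃ q : ℝ, q = L - n - s := ⟨_, rfl⟩
  obtain ⟨N, hNdef⟩ : ∃ N : ℕ, N = ⌈2 / w0⌉₊ := ⟨_, rfl⟩
  have hNW : 2 * (q - s) ≤ N * W := by
    have h1 : 2 / w0 ≤ N := by rw [hNdef]; exact Nat.le_ceil _
    have h2 : 2 / w0 * W ≤ N * W := mul_le_mul_of_nonneg_right h1 hW0.le
    have h3 : 2 / w0 * W = 2 * L := by
      rw [hW]
      field_simp
    rw [h3] at h2
    rw [hq]
    linarith
  have h3W : 3 * W ≤ q - s := by rw [hq]; linarith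
  have htw : ∫ g, ζ (aw k W t g) ∂P ≤ w0 / 5000 := by
    rw [hP]
    have h1 := PMN_set2 mG (dG F) {g | 1 / 25 < av κ W (g * aM t) ∧ av κ W (g * aM t) < 49 / 50} hm hfin
      (fun _ => 1) (fun g => ζ (aw k W t g)) (fun g => ‖pf β α r φ g‖ ^ 2) measurable_const (by
        simp only [haw]
        exact (hζc.comp (havc.comp (continuous_id.mul continuous_const))).measurable) hYc.measurable
      (fun _ => ⟨zero_le_one, le_rfl⟩) (fun _ => hζ.rg _) (fun _ => sq_nonneg _) (mY ^ 2) hY2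
      (fun g hg => by
        simp only [haw] at hg
        exact hZE.2 _ hg)
    simp only [one_pow, one_mul] at h1
    exact (mul_le_mul_of_nonneg_left h1 hrpos.le).trans hcon.le
  obtain ⟨hD1, hD2⟩ := hPDD SL(2, ℝ) P k χ ζ s q W η (w0 / 5000) (1 / 5) t t1 N hPfin hPu hkm hk01 hW0
    h3W hNW hη0.le (by positivity) hχc.measurable hζc.measurable hχ.rg hζ.rg hCH hZE
    (by
      intro t t' h1 h2 h3 h4
      rw [hEv, hEv]
      simp only [haw]
      rw [hq] at h3 h4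
      exact hI1 t t' h1 h2 h3 h4)
    (by
      intro t t' u h1 h2 h3 h4 h5 h6 h7 h8
      rw [hEv, hEv]
      simp only [haw, hkv]
      rw [hq] at h3 h4 h7 h8
      exact hI2 t t' u h1 h2 h3 h4 h5 h6 h7 h8)
    (by
      intro t t' h1 h2 h3 h4
      rw [hEv, hEv]
      simp only [hk]
      rw [hq] at h3 h4
      exact hI3 t t' h1 h2 h3 h4)
    (by linarith) (by rw [hq]; linarith) htw (by linarith) (by rw [hq]; linarith)
    (by
      rw [hEv]
      simp only [hk]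
      exact hmass)
  have hnum : 3 / 100 * (1 + η) + (2 * (N : ℝ) + 1) * (w0 / 5000 + η) + 2 * η ≤ 33 / 1000 := by
    rw [hη, hNdef]
    exact PMN_num hw0 hw1
  -- the symbol
  obtain ⟨τ, hτ⟩ : ∃ τ : ℝ, τ = s + W := ⟨_, rfl⟩
  obtain ⟨ka, kn, kl, hks, hka, hkn, hkl⟩ := PMN_symbol hPSF hPAV hK.sf hK.rg hC1 n hbn hbl hχ (τ := τ)
    hW0 (by rw [hτ]; linarith) hom hrpos (by linarith) (by rw [hτ]; linarith)
  obtain ⟨kk, hkk⟩ : ∃ kk : SL(2, ℝ) → ℝ, kk = fun g => χ (av κ W (g * aM τ)) := ⟨_, rfl⟩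
  rw [← hkk] at hks
  have hkkc : Continuous kk := hks.i0.1
  have hkk01 : ∀ g, 0 ≤ kk g ∧ kk g ≤ 1 := fun g => by rw [hkk]; exact hχ.rg _
  have hkkn : ∀ g, kk (-g) = kk g := by
    intro g
    have h1 := (hPAV Γ κ κa κn κl W C (C * Real.exp n) hK.sf hK.rg hbn hbl hW0).2.1 hK.ev (g * aM τ)
    rw [hkk]
    show χ (av κ W (-g * aM τ)) = χ (av κ W (g * aM τ))
    rw [neg_mul, h1]
  have hup := hU r φ kk ka kn kl hr2 hφ hnn hks hkk01 hkkn hka hkn hkl
  -- the right side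
  have hR : r * ∫ g in dG F \ {g | g * aM (Real.log r - n - s) ∈ HV.FW Γ A a (Real.exp (-n))},
      kk g ^ 2 * ‖pf β α r φ g‖ ^ 2 ∂mG ≤ 33 / 1000 := by
    have h1 := PMN_set1 mG (dG F) {g | g * aM (Real.log r - n - s) ∈ HV.FW Γ A a (Real.exp (-n))} hm hfin
      kk (fun g => k q g) (fun g => ‖pf β α r φ g‖ ^ 2) hkkc.measurable (by
        simp only [hkv]
        exact (hK.sf.i0.1.comp (continuous_id.mul continuous_const)).measurable) hYc.measurable
      hkk01 (fun g => hk01 q g) (fun _ => sq_nonneg _) (mY ^ 2) hY2 (fun g hg => by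
        simp only [hkv] at hg
        rw [hq] at hg
        exact hK.su _ hg)
    have h2 := hD1 τ q (by rw [hτ]) (by rw [hτ]; linarith) (by linarith) le_rfl
    rw [hP] at h2
    have h3 : ∀ g, χ (aw k W τ g) = kk g := fun g => by rw [haw, hkk]
    simp only [h3] at h2
    exact (mul_le_mul_of_nonneg_left h1 hrpos.le).trans (h2.trans hnum)
  -- the left side
  have hLe : 11 / 100 ≤ r * ∫ g in dG F ∩ {g | g * aM (-(n : ℝ)) ∈ HV.FW Γ A a (Real.exp (-n))},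
      kk g ^ 2 * ‖pf (st (-(n + s)) β) α r φ g‖ ^ 2 ∂mG := by
    have h1 := PMN_set2 mG (dG F) {g | g * aM (-(n : ℝ)) ∈ HV.FW Γ A a (Real.exp (-n))} hm hfin
      kk (fun g => k (-(n : ℝ)) g) (fun g => ‖pf (st (-(n + s)) β) α r φ g‖ ^ 2) hkkc.measurable (by
        simp only [hkv]
        exact (hK.sf.i0.1.comp (continuous_id.mul continuous_const)).measurable) hXc.measurable
      hkk01 (fun g => hk01 _ g) (fun _ => sq_nonneg _) (mX ^ 2) hX2 (fun g hg => by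
        simp only [hkv] at hg
        exact hK.su _ hg)
    have h2 := hE r φ hr3 hφ (fun g => kk (g * aM (n + s)) ^ 2 * k s g) (by
        simp only [hkv]
        exact (((hkkc.comp (continuous_id.mul continuous_const)).pow 2).mul
          (hK.sf.i0.1.comp (continuous_id.mul continuous_const))).measurable) (by
        intro g
        obtain ⟨b1, b2⟩ := hkk01 (g * aM (n + s))
        obtain ⟨b3, b4⟩ := hk01 s g
        rw [abs_of_nonneg (by positivity)]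
        exact mul_le_one₀ (pow_le_one₀ b1 b2) b3 b4) (by
        intro γ g
        show kk ((γ : SL(2, ℝ)) * g * aM (n + s)) ^ 2 * k s ((γ : SL(2, ℝ)) * g) = _
        rw [hkv, hkv, mul_assoc, mul_assoc, hks.i0.2, hK.sf.i0.2])
    rw [hnn, mul_one] at h2
    have h3 := (abs_le.mp h2).1
    have e1 : ∀ g : SL(2, ℝ), kk (g * aM (-(n + s)) * aM (n + s)) ^ 2 * k s (g * aM (-(n + s))) =
        kk g ^ 2 * k (-(n : ℝ)) g := by
      intro g
      rw [hkv, hkv, mul_assoc, mul_assoc, ← haM, ← haM]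
      have e2 : (-(n + s) + (n + s) : ℝ) = 0 := by ring
      have e3 : (-(n + s) + s : ℝ) = -(n : ℝ) := by ring
      have e4 : aM 0 = 1 := by
        have h := haM 0 0
        rw [add_zero] at h
        exact (left_eq_mul.mp h)
      rw [e2, e3, e4, mul_one]
    simp only [e1] at h3
    -- the lower bound
    have h4 := hD2 (τ + (n + s)) (by rw [hτ]; linarith) (by rw [hτ, hq]; linarith)
    have h5 := hD1 (τ + (n + s)) s (by rw [hτ]; linarith) (by rw [hτ, hq]; linarith) le_rfl (by linarith)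
    have h6 : ∀ g, χ (aw k W (τ + (n + s)) g) = kk (g * aM (n + s)) := fun g => by
      rw [haw, hkk]
      show χ (av κ W (g * aM (τ + (n + s)))) = χ (av κ W (g * aM (n + s) * aM τ))
      rw [mul_assoc, ← haM, add_comm τ]
    simp only [h6] at h4 h5
    have h7 : (∫ g, kk (g * aM (n + s)) ^ 2 ∂P) - ∫ g, kk (g * aM (n + s)) * (1 - k s g) ∂P ≤
        ∫ g, kk (g * aM (n + s)) ^ 2 * k s g ∂P := by
      have hkc1 : Continuous fun g => kk (g * aM (n + s)) := hkkc.comp (continuous_id.mul continuous_const)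
      have hkc2 : Continuous fun g => k s g := by
        simp only [hkv]
        exact hK.sf.i0.1.comp (continuous_id.mul continuous_const)
      have i1 : Integrable (fun g => kk (g * aM (n + s)) ^ 2) P :=
        Integrable.of_bound (hkc1.pow 2).measurable.aestronglyMeasurable 1 (Filter.Eventually.of_forall fun g => by
          obtain ⟨b1, b2⟩ := hkk01 (g * aM (n + s))
          rw [Real.norm_eq_abs, abs_of_nonneg (by positivity)]
          exact pow_le_one₀ b1 b2)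
      have i2 : Integrable (fun g => kk (g * aM (n + s)) * (1 - k s g)) P :=
        Integrable.of_bound (hkc1.mul (continuous_const.sub hkc2)).measurable.aestronglyMeasurable 1
          (Filter.Eventually.of_forall fun g => by
            obtain ⟨b1, b2⟩ := hkk01 (g * aM (n + s))
            obtain ⟨b3, b4⟩ := hk01 s g
            rw [Real.norm_eq_abs, abs_of_nonneg (mul_nonneg b1 (by linarith))]
            exact mul_le_one₀ b2 (by linarith) (by linarith))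
      have i3 : Integrable (fun g => kk (g * aM (n + s)) ^ 2 * k s g) P :=
        Integrable.of_bound ((hkc1.pow 2).mul hkc2).measurable.aestronglyMeasurable 1
          (Filter.Eventually.of_forall fun g => by
            obtain ⟨b1, b2⟩ := hkk01 (g * aM (n + s))
            obtain ⟨b3, b4⟩ := hk01 s g
            rw [Real.norm_eq_abs, abs_of_nonneg (by positivity)]
            exact mul_le_one₀ (pow_le_one₀ b1 b2) b3 b4)
      rw [← integral_sub i1 i2]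
      refine integral_mono (i1.sub i2) i3 (fun g => ?_)
      obtain ⟨b1, b2⟩ := hkk01 (g * aM (n + s))
      obtain ⟨b3, b4⟩ := hk01 s g
      show kk (g * aM (n + s)) ^ 2 - kk (g * aM (n + s)) * (1 - k s g) ≤ kk (g * aM (n + s)) ^ 2 * k s g
      have b5 : 0 ≤ kk (g * aM (n + s)) * (1 - kk (g * aM (n + s))) * (1 - k s g) :=
        mul_nonneg (mul_nonneg b1 (by linarith)) (by linarith)
      nlinarith
    have h8 : ∫ g, kk (g * aM (n + s)) ^ 2 * k s g ∂P =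
        r * iR F (fun g => kk (g * aM (n + s)) ^ 2 * k s g * ‖pf β α r φ g‖ ^ 2) := hP _
    have h9 : r * iR F (fun g => kk g ^ 2 * k (-(n : ℝ)) g * ‖pf (st (-(n + s)) β) α r φ g‖ ^ 2) ≤
        r * ∫ g in dG F ∩ {g | g * aM (-(n : ℝ)) ∈ HV.FW Γ A a (Real.exp (-n))},
          kk g ^ 2 * ‖pf (st (-(n + s)) β) α r φ g‖ ^ 2 ∂mG := mul_le_mul_of_nonneg_left h1 hrpos.le
    rw [h8] at h7
    have hw : w0 / 5000 ≤ 1 / 40000 := by linarith
    linarith
  -- contradiction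
  have hs1 : Real.sqrt (11 / 100) ≤ Real.sqrt (r * ∫ g in dG F ∩ {g | g * aM (-(n : ℝ)) ∈ HV.FW Γ A a (Real.exp (-n))},
      kk g ^ 2 * ‖pf (st (-(n + s)) β) α r φ g‖ ^ 2 ∂mG) := Real.sqrt_le_sqrt hLe
  have hs2 : 33 / 100 ≤ Real.sqrt (11 / 100) := Real.le_sqrt_of_sq_le (by norm_num)
  have hs3 : Real.sqrt (r * ∫ g in dG F \ {g | g * aM (Real.log r - n - s) ∈ HV.FW Γ A a (Real.exp (-n))},
      kk g ^ 2 * ‖pf β α r φ g‖ ^ 2 ∂mG) ≤ 2 / 10 := by
    rw [show (2 : ℝ) / 10 = Real.sqrt ((2 / 10) ^ 2) from (Real.sqrt_sq (by norm_num)).symm]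
    exact Real.sqrt_le_sqrt (hR.trans (by norm_num))
  have hup2 := hs2.trans (hs1.trans hup)
  linarith

end Pool.Agent.TP
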