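import Pool.Agent.helper25.IR.All
import Pool.Agent.helper62.EN.All
import Pool.Agent.helper62.HF.AllV
import Pool.Agent.helper62.MS.All
import Pool.Agent.helper62.RS.All
import Pool.Agent.helper13.T1.QB2
import Pool.Agent.helper14.T1.OAM
import Pool.Agent.helper14.T1.PDA
import Pool.Agent.helper15.T1.OEJ
import Pool.Agent.helper18.T1.LYC
import Pool.Agent.helper2.T1.XDK
import Pool.Agent.helper20.T1.KCH
import Pool.Agent.helper21.T1.PUP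
import Pool.Agent.helper21.T1.XSC
import Pool.Agent.helper22.T1.FN1
import Pool.Agent.helper22.T1.QFR
import Pool.Agent.helper23.T1.LB1
import Pool.Agent.helper26.T1.PIN
import Pool.Agent.helper26.T1.QFA
import Pool.Agent.helper27.T1.FLA
import Pool.Agent.helper27.T1.PDD
import Pool.Agent.helper27.T1.PSF
import Pool.Agent.helper29.T1.OKB
import Pool.Agent.helper29.T1.QFB
import Pool.Agent.helper30.T1.QTR
import Pool.Agent.helper33.T1.QE1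
import Pool.Agent.helper39.T1.PAV
import Pool.Agent.helper4.T1.PCH
import Pool.Agent.helper40.T1.OPE
import Pool.Agent.helper40.T1.QE3
import Pool.Agent.helper43.T1.PSL
import Pool.Agent.helper47.T1.QPV
import Pool.Agent.helper51.T1.FLQ
import Pool.Agent.helper53.T1.KLW
import Pool.Agent.helper53.T1.XVL
import Pool.Agent.helper59.T1.AllS
import Pool.Agent.helper61.T1.XCM
import Pool.Agent.helper63.T1.LTR
import Pool.Agent.helper64.T1.PDF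
import Pool.Agent.helper66.T1.QB3
import Pool.Agent.helper72.T1.QBT
import Pool.Agent.helper75.T1.OCH
import Pool.Agent.helper75.T1.QLP
import Pool.Agent.helper77.T1.OTA
import Pool.Agent.helper78.T1.QST
import Pool.Agent.helper80.T1.QOP
import Pool.Agent.helper81.T1.PKS
import Pool.Agent.helper85.T1.QB5
import Pool.Agent.helper85.T1.UPE
import Pool.Agent.helper87.T1.QE4
import Pool.Agent.helper91.T1.XKM
import Pool.Agent.helper92.T1.QB1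
import Pool.Agent.helper93.T1.OCB
import Pool.Agent.helper93.T1.PMN
import Pool.Agent.helper93.T1.FN2
import Pool.Agent.helper94.T1.LBL
import Pool.Agent.helper98.T1.PSE
import Pool.Agent.helper98.T1.QEF

/-!
# MP_07c750, project T1: assembly
-/

set_option autoImplicit false

open scoped MatrixGroups ContDiff Topology UpperHalfPlane ComplexConjugate
open UpperHalfPlane MeasureTheory Filter Set

namespace Pool.Agent.T1A

open Pool.Agent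

theorem A_TP_PSF : TP.PSF_stmt := TP.PSF_proof 
theorem A_TP_PKS : TP.PKS_stmt := TP.PKS_proof A_TP_PSF MS.A_BXM
theorem A_KCH : T1.KCH_stmt := T1.KCH_proof IR.A_COV IR.A_LOB IR.A_FLI A_TP_PKS EN.A_XFL EN.A_XTX
theorem A_OCB : T1.OCB_stmt := T1.OCB_proof 
theorem A_OEJ : T1.OEJ_stmt := T1.OEJ_proof 
theorem A_OCH : T1.OCH_stmt := T1.OCH_proof 
theorem A_OAM : T1.OAM_stmt := T1.OAM_proof A_OCH
theorem A_OKB : T1.OKB_stmt := T1.OKB_proof A_OAM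
theorem A_OTA : T1.OTA_stmt := T1.OTA_proof A_OKB
theorem A_QTR : T1.QTR_stmt := T1.QTR_proof RS.A_FL0 RS.A_GYN
theorem A_QB2 : T1.QB2_stmt := T1.QB2_proof 
theorem A_QB1 : T1.QB1_stmt := T1.QB1_proof 
theorem A_QB3 : T1.QB3_stmt := T1.QB3_proof A_QB1
theorem A_QBT : T1.QBT_stmt := T1.QBT_proof 
theorem A_QB5 : T1.QB5_stmt := T1.QB5_proof A_QB2 A_QB3 A_QBT RS.A_BK4
theorem A_QLP : T1.QLP_stmt := T1.QLP_proof 
theorem A_QEF : T1.QEF_stmt := T1.QEF_proof A_QB3 A_QTR A_QLP A_QBT RS.A_GFD RS.A_GBD RS.A_FL0 RS.A_FL4 RS.A_GR2 RS.A_CV1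
theorem A_QFR : T1.QFR_stmt := T1.QFR_proof A_QB5 A_QEF RS.A_ALH RS.A_CV1 RS.A_FL0 RS.A_GR2 RS.A_NR5
theorem A_QST : T1.QST_stmt := T1.QST_proof 
theorem A_QFA : T1.QFA_stmt := T1.QFA_proof A_QFR A_QST
theorem A_OPE : T1.OPE_stmt := T1.OPE_proof A_OCB A_OEJ A_OTA A_QTR A_QFR A_QST A_QFA
theorem A_QOP : T1.QOP_stmt := T1.QOP_proof A_OPE
theorem A_QE1 : T1.QE1_stmt := T1.QE1_proof A_QFR RS.A_CV1 RS.A_FL0
theorem A_QE3 : T1.QE3_stmt := T1.QE3_proof A_QE1 A_QST MS.A_STB MS.A_EQ2 RS.A_GLC RS.A_GFD RS.A_GBD RS.A_CV1 RS.A_FL0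
theorem A_QE4 : T1.QE4_stmt := T1.QE4_proof A_QE3 A_QFR A_QST MS.A_STB RS.A_GFD RS.A_GBD RS.A_FL0 RS.A_CV1
theorem A_QFB : T1.QFB_stmt := T1.QFB_proof A_QE1 A_QE3 A_QE4 A_QST
theorem A_QPV : T1.QPV_stmt := T1.QPV_proof A_QOP A_QFA A_QFB A_QST MS.A_STB MS.A_INW HV.A_AS4 RS.A_CV1 RS.A_FL0 RS.A_GFD RS.A_GBD RS.A_GLC
theorem A_UPE : T1.UPE_stmt := T1.UPE_proof A_QPV IR.A_LCK RS.A_GLC MS.A_STB RS.A_CV1 RS.A_FL0 RS.A_GFD RS.A_GBD
theorem A_LTH : T1.LTH_stmt := T1.AS_LTH 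
theorem A_MON : T1.MON_stmt := T1.AS_MON 
theorem A_FLA : T1.FLA_stmt := T1.FLA_proof 
theorem A_PSL : T1.PSL_stmt := T1.PSL_proof IR.A_SFP
theorem A_FLQ : T1.FLQ_stmt := T1.FLQ_proof A_LTH A_MON A_FLA A_PSL
theorem A_CVR : T1.CVR_stmt := T1.AS_CVR 
theorem A_KLW : T1.KLW_stmt := T1.KLW_proof A_UPE A_FLQ A_PSL A_CVR
theorem A_LYC : T1.LYC_stmt := T1.LYC_proof 
theorem A_LTR2 : T1.LTR2_stmt := T1.LTR2_proof 
theorem A_TP_XVL : TP.XVL_stmt := TP.XVL_proof MS.A_CVK EN.A_XVO RS.A_GLI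
theorem A_TP_XKM : TP.XKM_stmt := TP.XKM_proof A_TP_XVL MS.A_OSC MS.A_GKF MS.A_DYA MS.A_STB
theorem A_TP_XDK : TP.XDK_stmt := TP.XDK_proof 
theorem A_TP_XSC : TP.XSC_stmt := TP.XSC_proof 
theorem A_TP_XCM : TP.XCM_stmt := TP.XCM_proof A_TP_XKM A_TP_XDK A_TP_XSC
theorem A_TP_PUP : TP.PUP_stmt := TP.PUP_proof A_TP_XCM MS.A_STB MS.A_NM3 MS.A_SYB MS.A_SS1 MS.A_SS3
theorem A_TP_PAV : TP.PAV_stmt := TP.PAV_proof A_TP_PSF
theorem A_TP_PCH : TP.PCH_stmt := TP.PCH_proof 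
theorem A_TP_PIN : TP.PIN_stmt := TP.PIN_proof A_TP_PSF A_TP_PAV MS.A_INW
theorem A_TP_PDA : TP.PDA_stmt := TP.PDA_proof 
theorem A_TP_PDD : TP.PDD_stmt := TP.PDD_proof A_TP_PDA
theorem A_TP_PMN : TP.PMN_stmt := TP.PMN_proof A_TP_PUP A_TP_PSF A_TP_PAV A_TP_PCH A_TP_PIN A_TP_PDD MS.A_EQ4 MS.A_NM3 MS.A_STB RS.A_GFD RS.A_GBD RS.A_GLC RS.A_FL0 RS.A_CV1
theorem A_TP_PDF : TP.PDF_stmt := TP.PDF_proof A_TP_PMN A_TP_PAV
theorem A_LB1 : T1.LB1_stmt := T1.LB1_proof A_TP_PDF A_TP_PIN A_TP_PCH A_TP_PAV RS.A_GFD RS.A_FL0 RS.A_CV1 RS.A_GBD MS.A_STB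
theorem A_LBL : T1.LBL_stmt := T1.LBL_proof A_LTR2 A_LB1 A_TP_PSF A_TP_PAV MS.A_INW MS.A_NM3 MS.A_STB RS.A_GFD RS.A_GBD RS.A_FL0 RS.A_CV1 RS.A_GLC
theorem A_PSE : T1.PSE_stmt := T1.PSE_proof 
theorem A_FN1 : T1.FN1_stmt := T1.FN1_proof A_KLW A_LYC A_LBL A_PSE MS.A_INW MS.A_NM3 A_PSL RS.A_FL0 RS.A_CV1 RS.A_GBD RS.A_GFD
theorem A_FN2 : T1.FN2_stmt := T1.FN2b_proof A_FN1 A_KCH MS.A_NM3 EN.A_XFL EN.A_XTX RS.A_FL0 RS.A_CV1 RS.A_GBD RS.A_GFD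

end Pool.Agent.T1A
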